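import Pool.Agent.Helper22.G4.Gen

/-!
# GRAPH4: the families of zero sets in the construction of the graph
-/

namespace Pool.Agent.Helper22.G4

section

variable {α φ : Type}

/-- the vertices, with stacked facets, with `p`-vertices, with `q`-vertices -/
def Data.l0 (D : Data α φ) : List (W α φ) := D.verts.map W.v
def Data.l1 (D : Data α φ) : List (W α φ) := D.l0 ++ D.fcodes.map W.x
def Data.l2 (D : Data α φ) : List (W α φ) := D.l1 ++ D.flats.map W.p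
def Data.l3 (D : Data α φ) : List (W α φ) := D.l2 ++ D.flats.map W.q

def Data.Fs (D : Data α φ) (f : φ) : Set (W α φ) := {w | ∃ a ∈ D.verts, D.mem f a ∧ w = W.v a}

def Data.fam0 (D : Data α φ) : Set (Set (W α φ)) := {Z | ∃ f ∈ D.fcodes, Z = D.Fs f}

def Data.fam1 (D : Data α φ) : Set (Set (W α φ)) :=
  {Z | ∃ f ∈ D.fcodes, ∃ g ∈ D.fcodes, f ≠ g ∧ Z = (D.Fs f ∩ D.Fs g) ∪ {W.x f}}

/-- the pyramid over a flat -/
def Ps (R : Flat α φ) : Set (W α φ) := {w | ∃ a ∈ R.1, w = W.v a} ∪ {W.x R.2.1}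

def Data.fam2 (D : Data α φ) : Set (Set (W α φ)) :=
  {Z | Z ∈ D.fam1 ∧ ∀ R ∈ D.flats, Z ≠ Ps R} ∪
    {Z | ∃ R ∈ D.flats, ∃ Y ∈ D.fam1, Y ≠ Ps R ∧ Z = (Ps R ∩ Y) ∪ {W.p R}}

/-- the special edge of a flat -/
def es (R : Flat α φ) : Set (W α φ) := {w | ∃ a ∈ R.1.take 2, w = W.v a}

/-- the pyramid over a flat with apex `p` -/
def Zs (R : Flat α φ) : Set (W α φ) := {w | ∃ a ∈ R.1, w = W.v a} ∪ {W.p R}

def Data.vis3 (D : Data α φ) (R : Flat α φ) : Set (Set (W α φ)) :=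
  {Z | Z ∈ D.fam2 ∧ es R ⊆ Z ∧ Z ≠ Zs R}

def Data.fam3 (D : Data α φ) : Set (Set (W α φ)) :=
  {Z | Z ∈ D.fam2 ∧ ∀ R ∈ D.flats, Z ∉ D.vis3 R} ∪
    {Z | ∃ R ∈ D.flats, ∃ Y ∈ D.vis3 R, ∃ Y' ∈ D.fam2, Y' ∉ D.vis3 R ∧ Z = (Y ∩ Y') ∪ {W.q R}}

/-- the combinatorial facts about a family -/
structure StepFacts {V : Type*} (A : Finset V) (𝓩 : Set (Set V)) (adj : V → V → Prop) : Prop where
  sub : ∀ Z ∈ 𝓩, Z ⊆ A
  vert : ∀ u ∈ A, FVert A 𝓩 u
  adj : ∀ u ∈ A, ∀ w ∈ A, u ≠ w → (FAdj A 𝓩 u w ↔ adj u w)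

/-- What the graph forces: a configuration in which all flats are flat faces, their edges are
edges, and free simplex facets are simplex facets. -/
structure Data.Model [DecidableEq α] (D : Data α φ) (c : α → E5) : Prop where
  conf : Conf c D.verts.toFinset
  flat : ∀ R ∈ D.flats, FaceOn c D.verts.toFinset {a | a ∈ R.1}
  rank : ∀ R ∈ D.flats, rk c {a | a ∈ R.1} = 3
  edge : ∀ R ∈ D.flats, ∀ e ∈ cycPairs R.1, FaceOn c D.verts.toFinset {e.1, e.2}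
  free : ∀ f, D.Free f → FaceOn c D.verts.toFinset {a | a ∈ D.verts ∧ D.mem f a}
  free4 : ∀ f, D.Free f → rk c {a | a ∈ D.verts ∧ D.mem f a} = 4

end

end Pool.Agent.Helper22.G4
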