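import Pool.Agent.Helper22.G4.Gen

/-!
# GRAPH4: the base polytope of a system of additions and multiplications in normal form
-/

namespace Pool.Agent.Helper22.G4

/-- An operation `(mul, x, y, z)`: `z = x * y` or `z = x + y`, where `x`, `y`, `z` are labels. -/
abbrev Op : Type := Bool × ℕ × ℕ × ℕ

/-- A system in normal form: `(B, S, ops)`. The labels `0, …, B - 1` are the big variables, label
`B` is infinity, `B + 1` is zero, `B + 2` is one, `B + 3, …, B + 2 + S` are the small variables. -/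
abbrev NF : Type := ℕ × ℕ × List Op

namespace NF

def B (I : NF) : ℕ := I.1
def S (I : NF) : ℕ := I.2.1
def ops (I : NF) : List Op := I.2.2

/-- number of labels -/
def K (I : NF) : ℕ := I.B + 3 + I.S

/-- index of the last slope -/
def N (I : NF) : ℕ := 2 * I.K + 4

/-- number of pages besides page `0` -/
def M (I : NF) : ℕ := 4 * I.ops.length

/-- The operations are of the required form: `x` is small or one (small for multiplication), `y < z`
are big. -/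
def OK (I : NF) : Prop :=
  I.ops ≠ [] ∧ ∀ o ∈ I.ops, o.2.2.1 < o.2.2.2 ∧ o.2.2.2 < I.B ∧ I.B + 1 < o.2.1 ∧ o.2.1 < I.K ∧
    (o.1 = true → I.B + 2 < o.2.1)

/-- An operation holds for the values `val` of the labels. -/
def Holds (val : ℕ → ℝ) (o : Op) : Prop :=
  if o.1 then val o.2.2.2 = val o.2.1 * val o.2.2.1 else val o.2.2.2 = val o.2.1 + val o.2.2.1

/-- Weak solvability: any nonzero values. -/
def Weak (I : NF) : Prop :=
  ∃ val : ℕ → ℝ, val (I.B + 2) = 1 ∧ (∀ l < I.K, l ≠ I.B → l ≠ I.B + 1 → val l ≠ 0) ∧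
    ∀ o ∈ I.ops, Holds val o

/-- Strong solvability: the values are in the prescribed order, with a number `β` between the small
and the big ones. -/
def Strong (I : NF) : Prop :=
  ∃ (val : ℕ → ℝ) (β : ℝ), val (I.B + 1) = 0 ∧ val (I.B + 2) = 1 ∧
    (∀ i j, I.B + 2 ≤ i → i < j → j < I.K → val i < val j) ∧
    (∀ i, I.B + 2 ≤ i → i < I.K → val i < β) ∧ (∀ i < I.B, β < val i) ∧
    (∀ i j, i < j → j < I.B → val i < val j) ∧ ∀ o ∈ I.ops, Holds val o

end NF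

/-- slope index of a label -/
def pos (l : ℕ) : ℕ := 2 * l + 4

/-! ## Vertices -/

/-- codes of vertices -/
abbrev Vx : Type := ℕ × ℕ × ℕ × ℕ

/-- The vertex of page `a` that lies between the slopes `i` and `j`. -/
def Vx.u (a i j : ℕ) : Vx := (0, a, i, j)
def Vx.b1 : Vx := (1, 0, 0, 0)
def Vx.b2 : Vx := (2, 0, 0, 0)
def Vx.p (g : ℕ) : Vx := (3, g, 0, 0)
def Vx.q (g : ℕ) : Vx := (4, g, 0, 0)

/-! ## Facets -/

/-- Codes of facets: three pages, a range of slopes, whether the facet contains `b2`, `b1`, and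
which of the vertices `p g`, `q g` (`g + 1`; zero means none). -/
abbrev Fc : Type := (ℕ × ℕ × ℕ) × (ℕ × ℕ) × (Bool × Bool) × (ℕ × ℕ)

/-- incidence -/
def Fc.mem (f : Fc) (v : Vx) : Bool :=
  if v.1 = 0 then
    (decide (v.2.1 = f.1.1) || decide (v.2.1 = f.1.2.1) || decide (v.2.1 = f.1.2.2)) &&
      (decide (v.2.2.1 ≤ f.2.1.2) && decide (f.2.1.1 ≤ v.2.2.2))
  else if v.1 = 1 then f.2.2.1.2
  else if v.1 = 2 then f.2.2.1.1
  else if v.1 = 3 then decide (f.2.2.2.1 = v.2.1 + 1)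
  else decide (f.2.2.2.2 = v.2.1 + 1)

/-- the facet at slope `s` of pages `0`, `a`, `a + 1` -/
def Fc.F (N s a : ℕ) : Fc := ((0, a, a + 1), (s, s), (decide (s = 0), decide (s = N)), (0, 0))

/-- the facet spanned by the pages `a` and `b` -/
def Fc.Q (N a b : ℕ) : Fc := ((a, b, b), (0, N), (true, true), (0, 0))

/-- the facet spanned by the page `a` and `p g` -/
def Fc.GX (N a g : ℕ) : Fc := ((a, a, a), (0, N), (true, true), (g + 1, 0))

/-- the facet spanned by the page `a` and `q g` -/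
def Fc.GY (N a g : ℕ) : Fc := ((a, a, a), (0, N), (true, true), (0, g + 1))

/-- the facet `b1, b2, p g, q g` (`M + 1` is not a page) -/
def Fc.T0 (M N g : ℕ) : Fc := ((M + 1, M + 1, M + 1), (0, N), (true, true), (g + 1, g + 1))

/-- the facet at slope `s` of the gadget `g` on the pages `a` and `b`, with or without `p g` -/
def Fc.G (N a b g : ℕ) (s : ℕ × Bool) : Fc :=
  ((a, b, b), (s.1, s.1), (decide (s.1 = 0), decide (s.1 = N)), (if s.2 then g + 1 else 0, g + 1))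

/-! ## The pieces of an operation -/

/-- The data of the `o`-th operation: number `o` and the positions of `x, y, z, ∞, v, w`, where
`v = 0, w = ∞` for an addition and `v = 1, w = 0` for a multiplication. -/
abbrev OpD : Type := ℕ × (ℕ × ℕ × ℕ) × (ℕ × ℕ × ℕ)

def NF.opd (I : NF) (n : ℕ) (o : Op) : OpD :=
  (n, (pos o.2.1, pos o.2.2.1, pos o.2.2.2),
    (pos I.B, pos (if o.1 then I.B + 2 else I.B + 1), pos (if o.1 then I.B + 1 else I.B)))

namespace OpD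

def n (d : OpD) : ℕ := d.1
def x (d : OpD) : ℕ := d.2.1.1
def y (d : OpD) : ℕ := d.2.1.2.1
def z (d : OpD) : ℕ := d.2.1.2.2
def i (d : OpD) : ℕ := d.2.2.1
def v (d : OpD) : ℕ := d.2.2.2.1
def w (d : OpD) : ℕ := d.2.2.2.2

/-- the four pages of the operation -/
def pa (d : OpD) : ℕ := 4 * d.n + 1
def pb (d : OpD) : ℕ := 4 * d.n + 2
def pc (d : OpD) : ℕ := 4 * d.n + 3
def pd (d : OpD) : ℕ := 4 * d.n + 4

/-- the three gadgets of the operation: on the pages `(b, a)`, `(b, c)`, `(c, d)` -/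
def g0 (d : OpD) : ℕ := 3 * d.n
def g1 (d : OpD) : ℕ := 3 * d.n + 1
def g2 (d : OpD) : ℕ := 3 * d.n + 2

/-- the page after page `d`: the first page of the next operation, or page `0` -/
def nxt (M : ℕ) (d : OpD) : ℕ := if 4 * d.n + 4 = M then 0 else 4 * d.n + 5

/-- vertices -/
def verts (N : ℕ) (d : OpD) : List Vx :=
  [Vx.u d.pa 0 d.z, Vx.u d.pa d.z d.x, Vx.u d.pa d.x N,
    Vx.u d.pb 0 d.y, Vx.u d.pb d.y d.i, Vx.u d.pb d.i d.x, Vx.u d.pb d.x N,
    Vx.u d.pc 0 d.y, Vx.u d.pc d.y d.v, Vx.u d.pc d.v N,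
    Vx.u d.pd 0 d.w, Vx.u d.pd d.w N,
    Vx.p d.g0, Vx.q d.g0, Vx.p d.g1, Vx.q d.g1, Vx.p d.g2, Vx.q d.g2]

/-- facets (other than those of the form `Fc.F`) -/
def facets (M N : ℕ) (d : OpD) : List Fc :=
  [Fc.Q N d.pd (d.nxt M),
    Fc.GX N d.pb d.g0, Fc.GY N d.pa d.g0, Fc.T0 M N d.g0,
    Fc.GX N d.pb d.g1, Fc.GY N d.pc d.g1, Fc.T0 M N d.g1,
    Fc.GX N d.pc d.g2, Fc.GY N d.pd d.g2, Fc.T0 M N d.g2,
    Fc.G N d.pb d.pa d.g0 (0, true), Fc.G N d.pb d.pa d.g0 (d.y, true),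
    Fc.G N d.pb d.pa d.g0 (d.z, false), Fc.G N d.pb d.pa d.g0 (d.i, true),
    Fc.G N d.pb d.pa d.g0 (d.x, true), Fc.G N d.pb d.pa d.g0 (N, true),
    Fc.G N d.pb d.pc d.g1 (0, true), Fc.G N d.pb d.pc d.g1 (d.y, true),
    Fc.G N d.pb d.pc d.g1 (d.i, true), Fc.G N d.pb d.pc d.g1 (d.v, false),
    Fc.G N d.pb d.pc d.g1 (d.x, true), Fc.G N d.pb d.pc d.g1 (N, true),
    Fc.G N d.pc d.pd d.g2 (0, true), Fc.G N d.pc d.pd d.g2 (d.y, true),
    Fc.G N d.pc d.pd d.g2 (d.w, false), Fc.G N d.pc d.pd d.g2 (d.v, true),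
    Fc.G N d.pc d.pd d.g2 (N, true)]

/-- the facet before page `a` at slope `s` -/
def prev (N a s : ℕ) : Fc := if a = 1 then Fc.Q N 0 1 else Fc.F N s (a - 1)

/-- the facet after page `a` at slope `s` -/
def next (M N a s : ℕ) : Fc := if a = M then Fc.Q N a 0 else Fc.F N s a

/-- The quadrangle spanned by the edges of slope `s` of page `0` and of page `a`; `i`, `j` are the
slopes before and after `s` in page `a`. -/
def squad (M N a i s j : ℕ) : Flat Vx Fc :=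
  ([Vx.u 0 (s - 1) s, Vx.u a i s, Vx.u a s j, Vx.u 0 s (s + 1)], prev N a s, next M N a s)

/-- flats -/
def flats (M N : ℕ) (d : OpD) : List (Flat Vx Fc) :=
  [ -- the four pages
    ([Vx.b1, Vx.u d.pa d.x N, Vx.u d.pa d.z d.x, Vx.u d.pa 0 d.z, Vx.b2],
      Fc.Q N (d.pa - 1) d.pa, Fc.GY N d.pa d.g0),
    ([Vx.b2, Vx.u d.pb 0 d.y, Vx.u d.pb d.y d.i, Vx.u d.pb d.i d.x, Vx.u d.pb d.x N, Vx.b1],
      Fc.GX N d.pb d.g0, Fc.GX N d.pb d.g1),
    ([Vx.b1, Vx.u d.pc d.v N, Vx.u d.pc d.y d.v, Vx.u d.pc 0 d.y, Vx.b2],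
      Fc.GY N d.pc d.g1, Fc.GX N d.pc d.g2),
    ([Vx.b2, Vx.u d.pd 0 d.w, Vx.u d.pd d.w N, Vx.b1],
      Fc.GY N d.pd d.g2, Fc.Q N d.pd (d.nxt M)),
    -- the quadrangles with page `0`
    squad M N d.pa 0 d.z d.x,
    squad M N d.pb 0 d.y d.i, squad M N d.pb d.y d.i d.x, squad M N d.pb d.i d.x N,
    squad M N d.pc d.y d.v N,
    squad M N d.pd 0 d.w N,
    -- the quadrangles of the gadgets
    ([Vx.q d.g0, Vx.u d.pa 0 d.z, Vx.u d.pb 0 d.y, Vx.p d.g0],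
      Fc.G N d.pb d.pa d.g0 (0, true), Fc.G N d.pb d.pa d.g0 (d.y, true)),
    ([Vx.p d.g0, Vx.u d.pb d.i d.x, Vx.u d.pa d.z d.x, Vx.q d.g0],
      Fc.G N d.pb d.pa d.g0 (d.i, true), Fc.G N d.pb d.pa d.g0 (d.x, true)),
    ([Vx.q d.g1, Vx.u d.pc 0 d.y, Vx.u d.pb 0 d.y, Vx.p d.g1],
      Fc.G N d.pb d.pc d.g1 (0, true), Fc.G N d.pb d.pc d.g1 (d.y, true)),
    ([Vx.p d.g1, Vx.u d.pb d.y d.i, Vx.u d.pc d.y d.v, Vx.q d.g1],
      Fc.G N d.pb d.pc d.g1 (d.y, true), Fc.G N d.pb d.pc d.g1 (d.i, true)),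
    ([Vx.p d.g1, Vx.u d.pb d.x N, Vx.u d.pc d.v N, Vx.q d.g1],
      Fc.G N d.pb d.pc d.g1 (d.x, true), Fc.G N d.pb d.pc d.g1 (N, true)),
    ([Vx.p d.g2, Vx.u d.pc 0 d.y, Vx.u d.pd 0 d.w, Vx.q d.g2],
      Fc.G N d.pc d.pd d.g2 (0, true), Fc.G N d.pc d.pd d.g2 (d.y, true)),
    ([Vx.q d.g2, Vx.u d.pd d.w N, Vx.u d.pc d.v N, Vx.p d.g2],
      Fc.G N d.pc d.pd d.g2 (d.v, true), Fc.G N d.pc d.pd d.g2 (N, true))]

end OpD

namespace NF

/-- the operations with their numbers -/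
def opds (I : NF) : List OpD := I.ops.zipIdx.map fun o => I.opd o.2 o.1

/-- page `0` as a flat -/
def page0 (I : NF) : Flat Vx Fc :=
  ((List.range (I.N - 1)).map (fun i => Vx.u 0 (i + 1) (i + 2)) ++ [Vx.b1, Vx.b2, Vx.u 0 0 1],
    Fc.Q I.N 0 1, Fc.Q I.N I.M 0)

/-- the combinatorial base polytope with its flats -/
def data (I : NF) : Data Vx Fc where
  verts := Vx.b1 :: Vx.b2 :: ((List.range I.N).map (fun i => Vx.u 0 i (i + 1)) ++
    I.opds.flatMap (OpD.verts I.N))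
  fcodes := Fc.Q I.N 0 1 :: ((List.range (I.M - 1)).flatMap (fun a =>
    (List.range (I.N + 1)).map fun s => Fc.F I.N s (a + 1)) ++ I.opds.flatMap (OpD.facets I.M I.N))
  mem := Fc.mem
  flats := I.page0 :: I.opds.flatMap (OpD.flats I.M I.N)

/-- Page `a` has a vertex between the slopes `i` and `j`. -/
def PU (I : NF) (a i j : ℕ) : Prop := Vx.u a i j ∈ I.data.verts

end NF

end Pool.Agent.Helper22.G4
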