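import Pool.Agent.Helper89.Defs

/-!
# The decision problem GRAPH4

All definitions used in the statement of the theorem, besides those of
`Pool.Agent.Helper89.Defs` (decision problems, polynomial-time many-one reductions, the existential
theory of the reals, edge lists).
-/

namespace Pool.Agent.Helper22.G4

open Pool.Agent.Helper89

/-- The graph of a convex set `P` of `ℝ^d` (for us a polytope): its vertices are the extreme points
of `P`; two different ones are adjacent if the segment between them is an exposed face of `P`. -/
def polytopeGraph {d : ℕ} (P : Set (EuclideanSpace ℝ (Fin d))) :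
    SimpleGraph (P.extremePoints ℝ) where
  Adj u v := u ≠ v ∧
    IsExposed ℝ P (segment ℝ (u : EuclideanSpace ℝ (Fin d)) (v : EuclideanSpace ℝ (Fin d)))
  symm := ⟨fun u v h => ⟨h.1.symm, by rw [segment_symm]; exact h.2⟩⟩
  loopless := ⟨fun _ h => h.1 rfl⟩

/-- `G` is isomorphic to the graph of a polytope (the convex hull of a finite set `S` of points of
some `ℝ^d`) of dimension exactly `4`. -/
def IsGraphOf4Polytope {V : Type} (G : SimpleGraph V) : Prop :=
  ∃ (d : ℕ) (S : Set (EuclideanSpace ℝ (Fin d))), S.Finite ∧
    Module.finrank ℝ (vectorSpan ℝ S) = 4 ∧ Nonempty (G ≃g polytopeGraph (convexHull ℝ S))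

/-- GRAPH4: is a given finite graph isomorphic to the graph of some `4`-polytope? -/
noncomputable def GRAPH4 : DecisionProblem where
  Inst := EdgeList
  Alph := Bool
  finAlph := inferInstance
  enc := encodingOfInjective EdgeList.enc EdgeList.enc_injective
  Yes L := IsGraphOf4Polytope L.graph

end Pool.Agent.Helper22.G4
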