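import Pool.Agent.Helper22.G4.Base

/-!
# GRAPH4: from quadratic systems over the reals to systems in normal form
-/

namespace Pool.Agent.Helper22.G4

/-- The constraint `x i * x j + x k = x l`. -/
abbrev Q4 : Type := ℕ × ℕ × ℕ × ℕ

def Q4.Holds (x : ℕ → ℝ) (q : Q4) : Prop := x q.1 * x q.2.1 + x q.2.2.1 = x q.2.2.2

/-- Solvability over the reals with `x 0 = 0`, `x 1 = 1`. -/
def QuadSat (L : List Q4) : Prop := ∃ x : ℕ → ℝ, x 0 = 0 ∧ x 1 = 1 ∧ ∀ q ∈ L, Q4.Holds x q

/-- The constraint `(k, a, b, c)`: `a + b = c` for `k = 0`, `a * b = c` for `k = 1`, `a + 1 = c`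
otherwise. -/
abbrev PC : Type := ℕ × ℕ × ℕ × ℕ

def PC.Holds (u : ℕ → ℝ) (q : PC) : Prop :=
  if q.1 = 0 then u q.2.1 + u q.2.2.1 = u q.2.2.2
  else if q.1 = 1 then u q.2.1 * u q.2.2.1 = u q.2.2.2
  else u q.2.1 + 1 = u q.2.2.2

/-- solvability with all variables greater than one -/
def PosSat (C : List PC) : Prop := ∃ u : ℕ → ℝ, (∀ i, 1 < u i) ∧ ∀ q ∈ C, PC.Holds u q

/-- solvability over the reals -/
def PosWeak (C : List PC) : Prop := ∃ u : ℕ → ℝ, ∀ q ∈ C, PC.Holds u q

/-- a bound for the indices of a quadratic system -/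
def bnd (L : List Q4) : ℕ := (L.map fun q => q.1 + q.2.1 + q.2.2.1 + q.2.2.2).sum + 2

/-- every real variable is a difference of two variables greater than one -/
def av (i : ℕ) : ℕ := 2 * i
def bv (i : ℕ) : ℕ := if i = 0 then 0 else 2 * i + 1

/-- the constraints for the `t`-th quadratic constraint; `R` is the bound for the indices -/
def posQ (R t : ℕ) (q : Q4) : List PC :=
  [(1, av q.1, av q.2.1, 2 * R + 9 * t), (1, bv q.1, bv q.2.1, 2 * R + 9 * t + 1),
    (1, av q.1, bv q.2.1, 2 * R + 9 * t + 2), (1, bv q.1, av q.2.1, 2 * R + 9 * t + 3),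
    (0, 2 * R + 9 * t, 2 * R + 9 * t + 1, 2 * R + 9 * t + 4),
    (0, 2 * R + 9 * t + 2, 2 * R + 9 * t + 3, 2 * R + 9 * t + 5),
    (0, 2 * R + 9 * t + 4, av q.2.2.1, 2 * R + 9 * t + 6),
    (0, 2 * R + 9 * t + 5, bv q.2.2.1, 2 * R + 9 * t + 7),
    (0, 2 * R + 9 * t + 6, bv q.2.2.2, 2 * R + 9 * t + 8),
    (0, 2 * R + 9 * t + 7, av q.2.2.2, 2 * R + 9 * t + 8)]

def posOf (L : List Q4) : List PC :=
  (2, bv 1, 0, av 1) :: L.zipIdx.flatMap fun q => posQ (bnd L) q.2 q.1

/-- number of variables of `posOf L` -/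
def nvar (L : List Q4) : ℕ := 2 * bnd L + 9 * L.length

/-! ## The system in normal form

Labels: `Bn = 8 * (n + |C|)` big variables, infinity, zero, one, then the small variables
`A i, S i` (`i < n`), `C i, M i` (`i < n`), `D`, `E`; the value of the `i`-th variable is `S i - A i`, and
`M i = C i * (S i - A i)`. -/

def lA (B i : ℕ) : ℕ := B + 3 + 2 * i
def lS (B i : ℕ) : ℕ := B + 3 + 2 * i + 1
def lC (B n i : ℕ) : ℕ := B + 3 + 2 * n + 2 * i
def lM (B n i : ℕ) : ℕ := B + 3 + 2 * n + 2 * i + 1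
def lD (B n : ℕ) : ℕ := B + 3 + 4 * n
def lE (B n : ℕ) : ℕ := B + 3 + 4 * n + 1

/-- the module for `M i = C i * (S i - A i)` -/
def modConv (B n i : ℕ) : List Op :=
  [(false, lA B i, 8 * i, 8 * i + 1), (false, lS B i, 8 * i, 8 * i + 2),
    (true, lC B n i, 8 * i + 1, 8 * i + 3), (true, lC B n i, 8 * i + 2, 8 * i + 4),
    (false, lM B n i, 8 * i + 3, 8 * i + 4)]

/-- the module for a constraint; `b` is its first big variable -/
def modCon (B n b : ℕ) (q : PC) : List Op :=
  if q.1 = 0 then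
    [(false, lS B q.2.1, b, b + 1), (false, lS B q.2.2.1, b + 1, b + 2),
      (false, lA B q.2.2.2, b + 2, b + 3), (false, lD B n, b, b + 4),
      (false, lS B q.2.2.2, b + 4, b + 5), (false, lA B q.2.1, b + 5, b + 6),
      (false, lA B q.2.2.1, b + 6, b + 7), (false, lD B n, b + 3, b + 7)]
  else if q.1 = 1 then
    [(true, lM B n q.2.1, b, b + 1), (true, lM B n q.2.2.1, b + 1, b + 2),
      (true, lC B n q.2.2.2, b + 2, b + 3), (true, lE B n, b, b + 4),
      (true, lM B n q.2.2.2, b + 4, b + 5), (true, lC B n q.2.1, b + 5, b + 6),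
      (true, lC B n q.2.2.1, b + 6, b + 7), (true, lE B n, b + 3, b + 7)]
  else
    [(false, lS B q.2.2.2, b, b + 1), (false, lA B q.2.1, b + 1, b + 2),
      (false, lD B n, b, b + 3), (false, lS B q.2.1, b + 3, b + 4),
      (false, lA B q.2.2.2, b + 4, b + 5), (false, B + 2, b + 5, b + 6),
      (false, lD B n, b + 2, b + 6)]

/-- the system in normal form of a list of constraints on `n` variables -/
def nfOf (n : ℕ) (C : List PC) : NF :=
  (8 * (n + C.length), 4 * n + 2,
    (List.range n).flatMap (modConv (8 * (n + C.length)) n) ++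
      C.zipIdx.flatMap fun q => modCon (8 * (n + C.length)) n (8 * (n + q.2)) q.1)

/-- the system in normal form of a quadratic system -/
def nfQ (L : List Q4) : NF := nfOf (nvar L) (posOf L)

end Pool.Agent.Helper22.G4
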