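import Pool.Agent.Helper22.G4.GenFam
import Pool.Agent.Helper22.G4.Sys
import Pool.Agent.Helper22.G4.GraphDefs
import Pool.Agent.Helper89.Layer1b

/-!
# GRAPH4: the reduction as a function on lists
-/

namespace Pool.Agent.Helper22.G4

open Pool.Agent.Helper89

instance instDecWVF : DecidableEq (W Vx Fc) := instDecW
instance instDecXVF : DecidableEq (X Vx Fc) := instDecX

/-- The graph given by a list of vertices and a list of edges, as an edge list. -/
def toEdgeList {β : Type} [DecidableEq β] (L : List β) (E : List (β × β)) : EdgeList where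
  n := L.length
  edges := (List.finRange L.length).flatMap fun i =>
    ((List.finRange L.length).filter fun j => decide ((L.get i, L.get j) ∈ E)).map fun j => (i, j)

section

variable {α φ : Type} [DecidableEq α] [DecidableEq φ]

def Data.padjB (D : Data α φ) (a b : α) : Bool :=
  !(decide (a = b)) && D.verts.all fun t => decide (t = a) || (decide (t = b) ||
    D.fcodes.any fun f => D.mem f a && (D.mem f b && !D.mem f t))

/-- the edges between vertices of the polytope -/
def Data.edges1 (D : Data α φ) : List (W α φ × W α φ) :=
  D.verts.flatMap fun a => (D.verts.filter fun b => D.padjB a b).map fun b => (W.v a, W.v b)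

def Data.edges2 (D : Data α φ) : List (W α φ × W α φ) :=
  D.fcodes.flatMap fun f => (D.verts.filter fun a => D.mem f a).map fun a => (W.x f, W.v a)

def Data.edges3 (D : Data α φ) : List (W α φ × W α φ) :=
  D.flats.flatMap fun R => (W.p R, W.x R.2.1) :: R.1.map fun a => (W.p R, W.v a)

def Data.edges4 (D : Data α φ) : List (W α φ × W α φ) :=
  D.flats.flatMap fun R => (W.q R, W.p R) :: (R.1.map (fun a => (W.q R, W.v a)) ++
    (D.fcodes.filter fun f => D.eIn R f).flatMap fun f => (W.q R, W.x f) ::
      (D.fcodes.filter fun g => !(decide (f = g)) && D.eIn R g).flatMap fun g =>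
        (D.verts.filter fun a => D.mem f a && D.mem g a).map fun a => (W.q R, W.v a))

/-- the edges of the final graph -/
def Data.edgesX (D : Data α φ) : List (X α φ × X α φ) :=
  (D.edges1 ++ (D.edges2 ++ (D.edges3 ++ D.edges4))).map (fun e => (.inl e.1, .inl e.2)) ++
    (D.flats.flatMap Ts).flatMap fun T => T.map fun w => (.inr T, .inl w)

/-- the final graph -/
def Data.graph (D : Data α φ) : EdgeList := toEdgeList D.allX D.edgesX

end

/-- number of a real variable of the program of a formula -/
def rref (v : Env) : RRef → ℕ
  | .zero => 0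
  | .one => 1
  | .cur j => 2 + 7 * v.p + j
  | .lft => 2 + 7 * v.l
  | .rgt => 2 + 7 * v.r
  | .hom => 2 + 7 * v.h + 6

/-- the quadratic system of a formula -/
def quadsOf (ts : List Tok) : List Q4 :=
  (allBlks ts).flatMap fun b => (cons b.1).map fun q =>
    (rref b.2 q.i, rref b.2 q.j, rref b.2 q.k, rref b.2 q.l)

/-- the graph of a formula -/
def graph4Of (φ : QFormula) : EdgeList := (nfQ (quadsOf φ.enc)).data.graph

end Pool.Agent.Helper22.G4
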