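import Mathlib

/-!
# GRAPH4: conic configurations

Everything is phrased with vectors `c v` of a vector space (for us `ℝ⁵`), indexed by a finite set
`A` of labels; they span the extreme rays of a pointed cone, whose cross section is the polytope.
-/

namespace Pool.Agent.Helper22.G4

open Submodule

section

variable {V E : Type*} [AddCommGroup E] [Module ℝ E]

/-- `Z` is a face (given by its set of vertices) of the cone spanned by the vectors `c w`,
`w ∈ A`. -/
def FaceOn (c : V → E) (A : Finset V) (Z : Set V) : Prop :=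
  Z ⊆ A ∧ ∃ f : E →ₗ[ℝ] ℝ, (∀ w ∈ A, 0 ≤ f (c w)) ∧ ∀ w ∈ A, (f (c w) = 0 ↔ w ∈ Z)

/-- The vectors `c w`, `w ∈ A`, lie in an open half space and each of them spans an extreme ray of
the cone, different vectors different rays. -/
structure Conf (c : V → E) (A : Finset V) : Prop where
  pos : ∃ h : E →ₗ[ℝ] ℝ, ∀ w ∈ A, 0 < h (c w)
  vert : ∀ v ∈ A, FaceOn c A {v}

/-- the rank of a set of vectors -/
noncomputable def rk (c : V → E) (Z : Set V) : ℕ := Module.finrank ℝ (span ℝ (c '' Z))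

end

/-- five-space -/
abbrev E5 : Type := Fin 5 → ℝ

/-- The graph with vertex set `A` and adjacency `adj` is the graph of a cone of dimension five
with extreme rays `c v`, `v ∈ A`; equivalently the graph of a polytope of dimension four. -/
def ConicGraph {V : Type*} (A : Finset V) (adj : V → V → Prop) : Prop :=
  ∃ c : V → E5, Conf c A ∧ span ℝ (c '' (A : Set V)) = ⊤ ∧
    ∀ u ∈ A, ∀ v ∈ A, u ≠ v → (FaceOn c A {u, v} ↔ adj u v)

/-! ## Cones with a complete list of inequalities -/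

/-- the zero set of a functional -/
def zs {V : Type*} (c : V → E5) (A : Finset V) (f : E5 →ₗ[ℝ] ℝ) : Set V :=
  {v | v ∈ A ∧ f (c v) = 0}

/-- The cone spanned by the vectors `c v`, `v ∈ A` is full-dimensional and pointed and is described
by the finitely many inequalities `0 ≤ φ x`, `φ ∈ Φ`. -/
structure Complete {V : Type*} (c : V → E5) (A : Finset V) (Φ : Set (E5 →ₗ[ℝ] ℝ)) : Prop where
  finite : Φ.Finite
  pos : ∃ h : E5 →ₗ[ℝ] ℝ, ∀ w ∈ A, 0 < h (c w)
  span : span ℝ (c '' (A : Set V)) = ⊤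
  nonneg : ∀ φ ∈ Φ, ∀ v ∈ A, 0 ≤ φ (c v)
  compl : ∀ x : E5, (∀ φ ∈ Φ, 0 ≤ φ x) →
    ∃ b : V → ℝ, (∀ v ∈ A, 0 ≤ b v) ∧ x = ∑ v ∈ A, b v • c v

/-- The family `𝓩` of subsets of `A` is the family of zero sets of a complete list of
inequalities of some cone. -/
def Realizable {V : Type*} (A : Finset V) (𝓩 : Set (Set V)) : Prop :=
  ∃ (c : V → E5) (Φ : Set (E5 →ₗ[ℝ] ℝ)), Complete c A Φ ∧ zs c A '' Φ = 𝓩

/-- combinatorial adjacency with respect to a family of sets: nothing but `u` and `v` lies in all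
members that contain both -/
def FAdj {V : Type*} (A : Finset V) (𝓩 : Set (Set V)) (u v : V) : Prop :=
  ∀ t ∈ A, t ≠ u → t ≠ v → ∃ Z ∈ 𝓩, u ∈ Z ∧ v ∈ Z ∧ t ∉ Z

/-- combinatorial vertex property -/
def FVert {V : Type*} (A : Finset V) (𝓩 : Set (Set V)) (u : V) : Prop :=
  ∀ t ∈ A, t ≠ u → ∃ Z ∈ 𝓩, u ∈ Z ∧ t ∉ Z

/-- The family of zero sets after adding new vertices `z ∈ B`; the new vertex `z` is beyond the
members of `Vis z` and beneath all others. -/
def addFam {V : Type*} (𝓩 : Set (Set V)) (B : Finset V) (Vis : V → Set (Set V)) : Set (Set V) :=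
  {Z | Z ∈ 𝓩 ∧ ∀ z ∈ B, Z ∉ Vis z} ∪
    {Z | ∃ z ∈ B, ∃ Z₁ ∈ 𝓩, Z₁ ∈ Vis z ∧ ∃ Z₂ ∈ 𝓩, Z₂ ∉ Vis z ∧ Z = (Z₁ ∩ Z₂) ∪ {z}}

end Pool.Agent.Helper22.G4
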