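import Pool.Agent.Helper22.G4.Cone

/-!
# GRAPH4: the graph of a list of facets with prescribed flat faces
-/

namespace Pool.Agent.Helper22.G4

/-- A flat face: its vertices in cyclic order (the first two span the special edge of the flat) and
the codes of the two facets that contain it. -/
abbrev Flat (α φ : Type) : Type := List α × φ × φ

/-- A combinatorial polytope: vertices, codes of facets, incidence, and the flats (two-dimensional
faces) that are to be forced. -/
structure Data (α φ : Type) : Type where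
  verts : List α
  fcodes : List φ
  mem : φ → α → Bool
  flats : List (Flat α φ)

/-- consecutive pairs of a cyclic list -/
def cycPairs {α : Type} (l : List α) : List (α × α) := l.zip (l.tail ++ l.take 1)

/-- The vertices of the graph before the degree-four vertices are added: vertices `v` of the
polytope, a vertex `x` stacked on each facet, two vertices `p` and `q` for each flat. -/
abbrev W (α φ : Type) : Type := α ⊕ (φ ⊕ (Flat α φ ⊕ Flat α φ))

section

variable {α φ : Type}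

abbrev W.v (a : α) : W α φ := .inl a
abbrev W.x (f : φ) : W α φ := .inr (.inl f)
abbrev W.p (R : Flat α φ) : W α φ := .inr (.inr (.inl R))
abbrev W.q (R : Flat α φ) : W α φ := .inr (.inr (.inr R))

/-- The vertices of the final graph: one degree-four vertex is added for each of certain lists of
four vertices. -/
abbrev X (α φ : Type) : Type := W α φ ⊕ List (W α φ)

instance instDecFlat [DecidableEq α] [DecidableEq φ] : DecidableEq (Flat α φ) := inferInstance
instance instDecFF [DecidableEq α] [DecidableEq φ] : DecidableEq (Flat α φ ⊕ Flat α φ) :=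
  inferInstance
instance instDecFFF [DecidableEq α] [DecidableEq φ] :
    DecidableEq (φ ⊕ (Flat α φ ⊕ Flat α φ)) := inferInstance
instance instDecW [DecidableEq α] [DecidableEq φ] : DecidableEq (W α φ) := inferInstance
instance instDecLW [DecidableEq α] [DecidableEq φ] : DecidableEq (List (W α φ)) := inferInstance
instance instDecX [DecidableEq α] [DecidableEq φ] : DecidableEq (X α φ) := inferInstance

/-- the simplices at a flat on which degree-four vertices are stacked -/
def Ts (R : Flat α φ) : List (List (W α φ)) :=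
  ((cycPairs R.1).drop 1).flatMap (fun e =>
    [[W.p R, W.x R.2.1, W.v e.1, W.v e.2], [W.q R, W.x R.2.2, W.v e.1, W.v e.2]]) ++
  ((cycPairs R.1).take 1).flatMap (fun e =>
    [[W.p R, W.q R, W.v e.1, W.v e.2], [W.p R, W.q R, W.x R.2.1, W.v e.1],
      [W.p R, W.q R, W.x R.2.1, W.v e.2]])

/-- the special edge of a flat lies in the facet `f` -/
def Data.eIn (D : Data α φ) (R : Flat α φ) (f : φ) : Bool := (R.1.take 2).all (D.mem f)

/-- combinatorial adjacency of two vertices of the polytope -/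
def Data.padj (D : Data α φ) (a b : α) : Prop :=
  a ≠ b ∧ ∀ t ∈ D.verts, t ≠ a → t ≠ b → ∃ f ∈ D.fcodes, D.mem f a ∧ D.mem f b ∧ ¬ D.mem f t

/-- a vertex of the polytope adjacent to the `q`-vertex of a flat -/
def Data.qadj (D : Data α φ) (R : Flat α φ) (a : α) : Prop :=
  a ∈ R.1 ∨ ∃ f ∈ D.fcodes, ∃ g ∈ D.fcodes, f ≠ g ∧ D.eIn R f ∧ D.eIn R g ∧ D.mem f a ∧ D.mem g a

/-- adjacency before the degree-four vertices are added -/
def Data.adjW (D : Data α φ) : W α φ → W α φ → Prop
  | .inl a, .inl b => D.padj a b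
  | .inl a, .inr (.inl f) => D.mem f a
  | .inr (.inl f), .inl a => D.mem f a
  | .inl a, .inr (.inr (.inl R)) => a ∈ R.1
  | .inr (.inr (.inl R)), .inl a => a ∈ R.1
  | .inr (.inl f), .inr (.inr (.inl R)) => f = R.2.1
  | .inr (.inr (.inl R)), .inr (.inl f) => f = R.2.1
  | .inl a, .inr (.inr (.inr R)) => D.qadj R a
  | .inr (.inr (.inr R)), .inl a => D.qadj R a
  | .inr (.inl f), .inr (.inr (.inr R)) => D.eIn R f
  | .inr (.inr (.inr R)), .inr (.inl f) => D.eIn R f
  | .inr (.inr (.inl R)), .inr (.inr (.inr S)) => R = S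
  | .inr (.inr (.inr S)), .inr (.inr (.inl R)) => R = S
  | _, _ => False

/-- adjacency of the final graph -/
def Data.adjX (D : Data α φ) : X α φ → X α φ → Prop
  | .inl a, .inl b => D.adjW a b
  | .inl a, .inr T => a ∈ T
  | .inr T, .inl a => a ∈ T
  | .inr _, .inr _ => False

/-- the vertices before the degree-four vertices are added -/
def Data.allW (D : Data α φ) : List (W α φ) :=
  D.verts.map W.v ++ (D.fcodes.map W.x ++ (D.flats.map W.p ++ D.flats.map W.q))

/-- the vertices of the final graph -/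
def Data.allX (D : Data α φ) : List (X α φ) :=
  D.allW.map .inl ++ (D.flats.flatMap Ts).map .inr

/-- The conditions on the combinatorial data. -/
structure Data.Good (D : Data α φ) : Prop where
  vnd : D.verts.Nodup
  fnd : D.fcodes.Nodup
  rnd : D.flats.Nodup
  big : 6 ≤ D.verts.length
  anti : ∀ f ∈ D.fcodes, ∀ g ∈ D.fcodes, (∀ v ∈ D.verts, D.mem f v → D.mem g v) → f = g
  fvert : ∀ v ∈ D.verts, ∀ t ∈ D.verts, t ≠ v → ∃ f ∈ D.fcodes, D.mem f v ∧ ¬ D.mem f t
  fac3 : ∀ f ∈ D.fcodes, ∃ a ∈ D.verts, ∃ b ∈ D.verts, ∃ c ∈ D.verts, a ≠ b ∧ a ≠ c ∧ b ≠ c ∧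
    D.mem f a ∧ D.mem f b ∧ D.mem f c
  len : ∀ R ∈ D.flats, 4 ≤ R.1.length
  nd : ∀ R ∈ D.flats, R.1.Nodup
  sub : ∀ R ∈ D.flats, ∀ a ∈ R.1, a ∈ D.verts
  mem1 : ∀ R ∈ D.flats, R.2.1 ∈ D.fcodes
  mem2 : ∀ R ∈ D.flats, R.2.2 ∈ D.fcodes
  ne : ∀ R ∈ D.flats, R.2.1 ≠ R.2.2
  inter : ∀ R ∈ D.flats, ∀ v ∈ D.verts, (D.mem R.2.1 v ∧ D.mem R.2.2 v) ↔ v ∈ R.1
  diag : ∀ R ∈ D.flats, ∀ a ∈ R.1, ∀ b ∈ R.1, a ≠ b → (a, b) ∉ cycPairs R.1 →
    (b, a) ∉ cycPairs R.1 → ∀ f ∈ D.fcodes, D.mem f a → D.mem f b → f = R.2.1 ∨ f = R.2.2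
  edge : ∀ R ∈ D.flats, ∀ e ∈ cycPairs R.1, D.padj e.1 e.2
  sep : ∀ R ∈ D.flats, ∀ S ∈ D.flats, R ≠ S → ∀ f ∈ D.fcodes, ∀ g ∈ D.fcodes,
    D.eIn R f → D.eIn R g → D.eIn S f → D.eIn S g → f = g
  conn : ∀ R ∈ D.flats, ∀ f ∈ D.fcodes, ∀ g ∈ D.fcodes,
    Relation.ReflTransGen (fun f g => g ∈ D.fcodes ∧ ∃ v ∈ D.verts, v ∉ R.1 ∧ D.mem f v ∧ D.mem g v)
      f g

/-- A facet that plays no role for the flats and is a clique of size four. -/
structure Data.Free (D : Data α φ) (f : φ) : Prop where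
  mem : f ∈ D.fcodes
  four : {a | a ∈ D.verts ∧ D.mem f a}.ncard = 4
  clique : ∀ a ∈ D.verts, ∀ b ∈ D.verts, D.mem f a → D.mem f b → a ≠ b → D.padj a b
  nop : ∀ R ∈ D.flats, R.2.1 ≠ f
  noq : ∀ R ∈ D.flats, ¬ D.eIn R f

/-- the family of vertex sets of facets -/
def Data.fam (D : Data α φ) : Set (Set α) := {Z | ∃ f ∈ D.fcodes, Z = {a | a ∈ D.verts ∧ D.mem f a}}

end

end Pool.Agent.Helper22.G4
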