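import Pool.Agent.Helper22.G4.Cone
import Pool.Agent.Helper22.G4.GraphDefs

/-!
# GRAPH4: the existential formula for membership
-/

namespace Pool.Agent.Helper22.G4

open Pool.Agent.Helper89

/-- The algebraic form of the statement: `adj` on `0, …, n - 1` is the graph of a polytope in four-space with
vertices `p 0, …, p (n - 1)`; functionals for vertices and edges, convex combinations for
non-edges, and full dimension. Only pairs `u < v` are considered. -/
def AlgCond (n : ℕ) (adj : ℕ → ℕ → Prop) : Prop :=
  ∃ p : ℕ → ℕ → ℝ,
    (∀ v < n, ∃ f : ℕ → ℝ, ∀ w < n, w ≠ v →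
      ∑ i ∈ Finset.range 4, f i * p w i < ∑ i ∈ Finset.range 4, f i * p v i) ∧
    (∀ u v, u < v → v < n → adj u v → ∃ f : ℕ → ℝ,
      ∑ i ∈ Finset.range 4, f i * p u i = ∑ i ∈ Finset.range 4, f i * p v i ∧
      ∀ w < n, w ≠ u → w ≠ v →
        ∑ i ∈ Finset.range 4, f i * p w i < ∑ i ∈ Finset.range 4, f i * p u i) ∧
    (∀ u v, u < v → v < n → ¬ adj u v → ∃ l : ℕ → ℝ, (∀ w < n, 0 ≤ l w) ∧ l u + l v = 1 ∧
      ∑ w ∈ (Finset.range n).filter (fun w => w ≠ u ∧ w ≠ v), l w = 1 ∧
      ∀ i < 4, l u * p u i + l v * p v i =
        ∑ w ∈ (Finset.range n).filter (fun w => w ≠ u ∧ w ≠ v), l w * p w i) ∧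
    ∀ i < 4, ∃ l : ℕ → ℝ, ∑ v ∈ Finset.range n, l v = 0 ∧
      ∀ k < 4, ∑ v ∈ Finset.range n, l v * p v k = if k = i then 1 else 0

/-- sum of a list of terms -/
def sumT (l : List PTerm) : PTerm := l.foldl .add (.const 0)

/-- conjunction of a list of formulas -/
def conjF (l : List QFormula) : QFormula := l.foldl .and (.eq (.const 0) (.const 0))

/-- variables: coordinates of the points, functionals, coefficients, coefficients for the
dimension -/
def vp (v i : ℕ) : PTerm := .var (4 * v + i)
def vf (n u v i : ℕ) : PTerm := .var (4 * n + (u * n + v) * (n + 4) + i)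
def vl (n u v w : ℕ) : PTerm := .var (4 * n + (u * n + v) * (n + 4) + 4 + w)
def vd (n i v : ℕ) : PTerm := .var (4 * n + n * n * (n + 4) + i * n + v)

/-- the value of the functional of the pair `(u, v)` at the point `w` -/
def dotT (n u v w : ℕ) : PTerm := sumT ((List.range 4).map fun i => .mul (vf n u v i) (vp w i))

def vertF (n v : ℕ) : QFormula :=
  conjF (((List.range n).filter fun w => !(decide (w = v))).map fun w =>
    .lt (dotT n v v w) (dotT n v v v))

def others (n u v : ℕ) : List ℕ :=
  (List.range n).filter fun w => !(decide (w = u)) && !(decide (w = v))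

def edgeF (n u v : ℕ) : QFormula :=
  .and (.eq (dotT n u v u) (dotT n u v v))
    (conjF ((others n u v).map fun w => .lt (dotT n u v w) (dotT n u v u)))

def nonF (n u v : ℕ) : QFormula :=
  .and (conjF ((List.range n).map fun w => .le (.const 0) (vl n u v w)))
    (.and (.eq (.add (vl n u v u) (vl n u v v)) (.const 1))
      (.and (.eq (sumT ((others n u v).map fun w => vl n u v w)) (.const 1))
        (conjF ((List.range 4).map fun i =>
          .eq (.add (.mul (vl n u v u) (vp u i)) (.mul (vl n u v v) (vp v i)))
            (sumT ((others n u v).map fun w => .mul (vl n u v w) (vp w i)))))))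

def dimF (n i : ℕ) : QFormula :=
  .and (.eq (sumT ((List.range n).map fun v => vd n i v)) (.const 0))
    (conjF ((List.range 4).map fun k =>
      .eq (sumT ((List.range n).map fun v => .mul (vd n i v) (vp v k)))
        (.const (if k = i then 1 else 0))))

def pairF (n : ℕ) (E : List (ℕ × ℕ)) (u v : ℕ) : QFormula :=
  if (u, v) ∈ E ∨ (v, u) ∈ E then edgeF n u v else nonF n u v

/-- the formula for membership; `E` is the list of edges -/
def memF (n : ℕ) (E : List (ℕ × ℕ)) : QFormula :=
  conjF ((List.range n).map (vertF n) ++
    ((List.range n).flatMap (fun v => (List.range v).map fun u => pairF n E u v) ++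
      (List.range 4).map (dimF n)))

/-- the edges of an edge list as pairs of natural numbers -/
def natEdges (G : EdgeList) : List (ℕ × ℕ) := G.edges.map fun e => ((e.1 : ℕ), (e.2 : ℕ))

/-- four-bit codes of the symbols in which formulas are written -/
def tokBits : Tok → List Bool
  | .tick => [false, false, false, false]
  | .var => [false, false, false, true]
  | .zero => [false, false, true, false]
  | .dig0 => [false, false, true, true]
  | .dig1 => [false, true, false, false]
  | .neg => [false, true, false, true]
  | .add => [false, true, true, false]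
  | .mul => [false, true, true, true]
  | .eq => [true, false, false, false]
  | .lt => [true, false, false, true]
  | .le => [true, false, true, false]
  | .not => [true, false, true, true]
  | .and => [true, true, false, false]
  | .or => [true, true, false, true]

end Pool.Agent.Helper22.G4
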