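import Pool.Agent.Helper22.G4.Code
import Pool.Agent.Helper22.G4.Mem
import Pool.Agent.Helper91.PolyTime.Typed

/-!
# GRAPH4: encodings for the polynomial-time computations
-/

namespace Pool.Agent.Helper22.G4

open Pool.Agent.Helper89 Pool.Agent.Helper91.PolyTime

instance instPEncTok : PEnc Tok := ⟨tokBits, by intro a b h; cases a <;> cases b <;> simp_all [tokBits]⟩

instance instPEncFlat {α φ : Type} [PEnc α] [PEnc φ] : PEnc (Flat α φ) := inferInstance
instance instPEncFF {α φ : Type} [PEnc α] [PEnc φ] : PEnc (Flat α φ ⊕ Flat α φ) := inferInstance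
instance instPEncFFF {α φ : Type} [PEnc α] [PEnc φ] : PEnc (φ ⊕ (Flat α φ ⊕ Flat α φ)) :=
  inferInstance
instance instPEncW {α φ : Type} [PEnc α] [PEnc φ] : PEnc (W α φ) := inferInstance
instance instPEncLW {α φ : Type} [PEnc α] [PEnc φ] : PEnc (List (W α φ)) := inferInstance
instance instPEncX {α φ : Type} [PEnc α] [PEnc φ] : PEnc (X α φ) := inferInstance

instance instPEncFlatVF : PEnc (Flat Vx Fc) := instPEncFlat
instance instPEncWVF : PEnc (W Vx Fc) := instPEncW
instance instPEncXVF : PEnc (X Vx Fc) := instPEncX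

end Pool.Agent.Helper22.G4
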