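import Pool.Agent.Helper22.G4.Base

/-!
# GRAPH4: coordinates for the base polytope
-/

namespace Pool.Agent.Helper22.G4

open Submodule

/-- a functional given by its coefficients -/
noncomputable def lin (a b c d e : ℝ) : E5 →ₗ[ℝ] ℝ :=
  a • LinearMap.proj 0 + b • LinearMap.proj 1 + c • LinearMap.proj 2 + d • LinearMap.proj 3 +
    e • LinearMap.proj 4

/-- a vector given by its coordinates -/
def vec (a b c d e : ℝ) : E5 := ![a, b, c, d, e]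

theorem lin_vec (a b c d e a' b' c' d' e' : ℝ) :
    lin a b c d e (vec a' b' c' d' e') = a * a' + b * b' + c * c' + d * d' + e * e' := by
  simp [lin, vec]

/-- `x` lies in the cone spanned by the vectors `c v`, `v ∈ A`. -/
def InCone {V : Type*} (c : V → E5) (A : Finset V) (x : E5) : Prop :=
  ∃ b : V → ℝ, (∀ v ∈ A, 0 ≤ b v) ∧ x = ∑ v ∈ A, b v • c v

/-- Slopes, coordinates and tangent values of the pages. `X a i`, `H a i` are the coordinates of the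
vertex of page `a` after the slope `i`; `T a s` is the minimum of `H - al s * X` on page `a`. -/
structure Geo (I : NF) where
  al : ℕ → ℝ
  X : ℕ → ℕ → ℝ
  H : ℕ → ℕ → ℝ
  T : ℕ → ℕ → ℝ
  mono : ∀ i j, i < j → j ≤ I.N → al i < al j
  tan : ∀ a i j, I.PU a i j → ∀ s ≤ I.N, T a s ≤ H a i - al s * X a i ∧
    (T a s = H a i - al s * X a i ↔ i ≤ s ∧ s ≤ j)
  /-- the vertices that are kept when a vertex is deleted from a page -/
  keep : ∀ d ∈ I.opds,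
    (X d.pa 0 = X d.pb 0 ∧ H d.pa 0 = H d.pb 0) ∧ (X d.pa d.z = X d.pb d.i ∧ H d.pa d.z = H d.pb d.i) ∧
    (X d.pa d.x = X d.pb d.x ∧ H d.pa d.x = H d.pb d.x) ∧
    (X d.pc 0 = X d.pb 0 ∧ H d.pc 0 = H d.pb 0) ∧ (X d.pc d.y = X d.pb d.y ∧ H d.pc d.y = H d.pb d.y) ∧
    (X d.pc d.v = X d.pb d.x ∧ H d.pc d.v = H d.pb d.x) ∧
    (X d.pd 0 = X d.pc 0 ∧ H d.pd 0 = H d.pc 0) ∧ (X d.pd d.w = X d.pc d.v ∧ H d.pd d.w = H d.pc d.v)

/-- the two pages of a gadget -/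
def gX (g : ℕ) : ℕ := 4 * (g / 3) + (if g % 3 = 2 then 3 else 2)
def gY (g : ℕ) : ℕ := 4 * (g / 3) + (if g % 3 = 0 then 1 else if g % 3 = 1 then 3 else 4)

/-- barycentric coordinate `X` with respect to the positions `0, X, Y` -/
noncomputable def bX (X Y : ℝ) : E5 →ₗ[ℝ] ℝ := lin 0 0 0 (Y / (X * (Y - X))) (-1 / (X * (Y - X)))

/-- barycentric coordinate `0` with respect to the positions `0, X, Y` -/
noncomputable def b0 (X Y : ℝ) : E5 →ₗ[ℝ] ℝ := lin 0 0 1 (-(X + Y) / (X * Y)) (1 / (X * Y))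

/-- the functional of the pair of pages `a`, `b` -/
noncomputable def fQ (a b : ℕ) : E5 →ₗ[ℝ] ℝ :=
  if b = 0 then lin 0 0 0 a (-1) else lin 0 0 (a * b) (-(a + b)) 1

namespace Geo

variable {I : NF} (G : Geo I)

/-- The page `0` is so low that the lower hull over the positions of the pages is the fan with
apex `0`. -/
def Fan : Prop := ∀ a b s : ℕ, 1 ≤ a → a + 1 ≤ I.M → b ≤ I.M → b ≠ 0 → b ≠ a → b ≠ a + 1 → s ≤ I.N →
  G.T 0 s * (((b : ℝ) - a) * (b - a - 1) / (a * (a + 1))) + G.T a s * (b * (a + 1 - b) / a) +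
    G.T (a + 1) s * (b * (b - a) / (a + 1)) < G.T b s

/-- coordinates of the vertices; `h` and `m` are large numbers -/
noncomputable def c (h m : ℝ) (v : Vx) : E5 :=
  if v.1 = 0 then vec (G.X v.2.1 v.2.2.1) (G.H v.2.1 v.2.2.1) 1 v.2.1 (v.2.1 ^ 2)
  else if v.1 = 1 then vec 1 (G.al I.N) 0 0 0
  else if v.1 = 2 then vec (-1) (-G.al 0) 0 0 0
  else if v.1 = 3 then vec 0 (m * h) (2 * m - 1) (m * (gX v.2.1 + gY v.2.1))
    (m * (gX v.2.1 ^ 2 + gY v.2.1 ^ 2))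
  else vec 0 (m * h) (2 * m - 1) (m * (gX v.2.1 + gY v.2.1) + (gY v.2.1 - gX v.2.1))
    (m * (gX v.2.1 ^ 2 + gY v.2.1 ^ 2) + (gY v.2.1 ^ 2 - gX v.2.1 ^ 2))

/-- the functional of the facet at slope `s` of the pages `0, a, a + 1` -/
noncomputable def fF (s a : ℕ) : E5 →ₗ[ℝ] ℝ :=
  lin (-G.al s) 1 0 0 0 - G.T 0 s • b0 a (a + 1) - G.T a s • bX a (a + 1) -
    G.T (a + 1) s • bX (a + 1) a

noncomputable def fGX (m : ℝ) (g : ℕ) : E5 →ₗ[ℝ] ℝ := bX (gY g) (gX g) + m • b0 (gX g) (gY g)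
noncomputable def fGY (m : ℝ) (g : ℕ) : E5 →ₗ[ℝ] ℝ := bX (gX g) (gY g) + (m - 1) • b0 (gX g) (gY g)
noncomputable def fT (m : ℝ) (g : ℕ) : E5 →ₗ[ℝ] ℝ :=
  bX (gX g) (gY g) + bX (gY g) (gX g) + (2 * m) • b0 (gX g) (gY g)

noncomputable def fG (h m : ℝ) (g s : ℕ) : E5 →ₗ[ℝ] ℝ :=
  lin (-G.al s) 1 0 0 0 - G.T (gX g) s • bX (gX g) (gY g) - G.T (gY g) s • bX (gY g) (gX g) +
    (m * (h - G.T (gX g) s - G.T (gY g) s) + G.T (gX g) s - G.T (gY g) s) • b0 (gX g) (gY g)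

/-- the functional of a facet code -/
noncomputable def phi (h m : ℝ) (f : Fc) : E5 →ₗ[ℝ] ℝ :=
  if f.2.2.2.2 = 0 then
    if f.2.2.2.1 = 0 then (if f.2.1.1 = f.2.1.2 then G.fF f.2.1.1 f.1.2.1 else fQ f.1.1 f.1.2.1)
    else fGX m (f.2.2.2.1 - 1)
  else if f.2.1.1 = f.2.1.2 then G.fG h m (f.2.2.2.2 - 1) f.2.1.1
  else if f.2.2.2.1 = 0 then fGY m (f.2.2.2.2 - 1) else fT m (f.2.2.2.2 - 1)

/-- `φ` is nonnegative on all vertices and its zero set is the facet `f`. -/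
def Valid (h m : ℝ) (f : Fc) : Prop :=
  ∀ v ∈ I.data.verts, 0 ≤ G.phi h m f (G.c h m v) ∧ (G.phi h m f (G.c h m v) = 0 ↔ Fc.mem f v)

end Geo

/-- A page: intervals `(i, j)` of slopes, coordinates of the vertices and tangent values. -/
def PageOK (al : ℕ → ℝ) (N : ℕ) (J : List (ℕ × ℕ)) (X H T : ℕ → ℝ) : Prop :=
  ∀ p ∈ J, ∀ s ≤ N, T s ≤ H p.1 - al s * X p.1 ∧
    (T s = H p.1 - al s * X p.1 ↔ p.1 ≤ s ∧ s ≤ p.2)

namespace Geo

variable {I : NF} (G : Geo I)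

theorem phi_F (h m : ℝ) (N s a : ℕ) : G.phi h m (Fc.F N s a) = G.fF s a := by
  simp [phi, Fc.F]

theorem phi_Q (h m : ℝ) {N : ℕ} (hN : N ≠ 0) (a b : ℕ) : G.phi h m (Fc.Q N a b) = fQ a b := by
  simp [phi, Fc.Q, hN.symm]

theorem phi_GX (h m : ℝ) (N a g : ℕ) : G.phi h m (Fc.GX N a g) = fGX m g := by
  simp [phi, Fc.GX]

theorem phi_GY (h m : ℝ) {N : ℕ} (hN : N ≠ 0) (a g : ℕ) : G.phi h m (Fc.GY N a g) = fGY m g := by
  simp [phi, Fc.GY, hN.symm]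

theorem phi_T0 (h m : ℝ) {N : ℕ} (hN : N ≠ 0) (M g : ℕ) : G.phi h m (Fc.T0 M N g) = fT m g := by
  simp [phi, Fc.T0, hN.symm]

theorem phi_G (h m : ℝ) (N a b g : ℕ) (s : ℕ × Bool) :
    G.phi h m (Fc.G N a b g s) = G.fG h m g s.1 := by
  simp [phi, Fc.G]

end Geo

end Pool.Agent.Helper22.G4
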